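import Pool.Agent.helper77.T6L.LBof

set_option autoImplicit false

/-!
# T6L: the final theorem on the lower bound (imaginary fields), from the target `LB_stmt`
-/

namespace Pool.Agent.T6L

open Finset NumberField Pool.Agent.helper3.FT Pool.Agent.helper47.RA Pool.Agent.T5 Pool.Agent.T6

/-- block O gives `GT_stmt` when the function `h` exists; without `h` there is nothing to prove -/
theorem LB_ex (hL : LBM_stmt)
    (hG : (∃ h : ℤ → ℕ, ∀ (K : Type) [Field K] [NumberField K], Module.finrank ℚ K = 2 →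
      h (NumberField.discr K) = Nat.card {x : ClassGroup (𝓞 K) // x ^ 5 = 1}) → GT_stmt)
    (hD : GD_stmt) : LB_stmt := by
  by_cases hh : ∃ h : ℤ → ℕ, ∀ (K : Type) [Field K] [NumberField K], Module.finrank ℚ K = 2 →
      h (NumberField.discr K) = Nat.card {x : ClassGroup (𝓞 K) // x ^ 5 = 1}
  · exact LB_of hL (hG hh) hD
  · exact ⟨1, 0, one_pos, fun h h1 => absurd ⟨h, h1⟩ hh⟩

open Classical in
/-- **EL**: `∑ (#Cl(ℚ(√D))[5] - 1) ≥ c N` over the fundamental discriminants `D` with `-N < D < 0` -/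
def EL_stmt : Prop :=
    ∃ c : ℝ, 0 < c ∧ ∃ N₀ : ℕ, ∀ f : ℤ → ℕ,
      (∀ (K : Type) [Field K] [NumberField K], Module.finrank ℚ K = 2 →
        f (NumberField.discr K) =
          Nat.card {x : ClassGroup (NumberField.RingOfIntegers K) // x ^ 5 = 1}) →
      ∀ N : ℕ, N₀ ≤ N →
        c * N ≤ ∑ D ∈ (Finset.Ioo (-(N : ℤ)) (0 : ℤ)).filter (fun D : ℤ =>
              (D % 4 = 1 ∧ D ≠ 1 ∧ Squarefree D) ∨
              (∃ m : ℤ, D = 4 * m ∧ (m % 4 = 2 ∨ m % 4 = 3) ∧ Squarefree m)),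
            ((f D : ℝ) - 1)

/-- the lower bound, imaginary fields -/
theorem EL_of (hL : LB_stmt) : EL_stmt := by
  classical
  obtain ⟨c, N₁, hc, hL⟩ := hL
  refine ⟨c / 2, by positivity, max (⌈N₁⌉₊ + 1) 2, fun f hf N hN => ?_⟩
  have hN2 : 2 ≤ N := (le_max_right _ _).trans hN
  have hN1 : ⌈N₁⌉₊ + 1 ≤ N := (le_max_left _ _).trans hN
  have h1 : N₁ ≤ ((N - 1 : ℕ) : ℝ) := by
    have h2 : ⌈N₁⌉₊ ≤ N - 1 := by omega
    exact (Nat.le_ceil N₁).trans (by exact_mod_cast h2)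
  have h3 := hL f hf ((N - 1 : ℕ) : ℝ) h1
  have h4 : c / 2 * N ≤ c * ((N - 1 : ℕ) : ℝ) := by
    rw [Nat.cast_sub (by omega)]
    have h5 : (2 : ℝ) ≤ N := by exact_mod_cast hN2
    push_cast
    nlinarith
  refine h4.trans (h3.trans (le_of_eq ?_))
  refine Finset.sum_congr ?_ fun _ _ => rfl
  have h6 : ⌊((N - 1 : ℕ) : ℝ)⌋ = (N : ℤ) - 1 := by
    rw [Int.floor_natCast, Nat.cast_sub (by omega)]
    push_cast
    rfl
  rw [h6]
  ext D
  simp only [Finset.mem_filter, Finset.mem_Ico, Finset.mem_Ioo, IsFund]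
  constructor
  · rintro ⟨⟨h7, h8⟩, h9⟩
    exact ⟨⟨by omega, h8⟩, h9⟩
  · rintro ⟨⟨h7, h8⟩, h9⟩
    exact ⟨⟨by omega, h8⟩, h9⟩

end Pool.Agent.T6L
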