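import Pool.Agent.helper77.T6L.LBof
import Pool.Agent.helper3.T6R.Defs

set_option autoImplicit false

/-!
# T6, T6R, T6L: the final theorem (both signs, upper bounds; lower bound for the imaginary fields)
-/

namespace Pool.Agent.T6L

open Finset NumberField Pool.Agent.helper3.FT Pool.Agent.helper47.RA Pool.Agent.T5 Pool.Agent.T6

/-- block O gives `GT_stmt` from `UB_stmt` when the function `h` exists; without `h` there is nothing to prove -/
theorem LB_fin (hL : LBM_stmt)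
    (hG : (∃ h : ℤ → ℕ, ∀ (K : Type) [Field K] [NumberField K], Module.finrank ℚ K = 2 →
      h (NumberField.discr K) = Nat.card {x : ClassGroup (𝓞 K) // x ^ 5 = 1}) → GT_stmt)
    (hD : GD_stmt) : LB_stmt := by
  by_cases hh : ∃ h : ℤ → ℕ, ∀ (K : Type) [Field K] [NumberField K], Module.finrank ℚ K = 2 →
      h (NumberField.discr K) = Nat.card {x : ClassGroup (𝓞 K) // x ^ 5 = 1}
  · exact LB_of hL (hG hh) hD
  · exact ⟨1, 0, one_pos, fun h h1 => absurd ⟨h, h1⟩ hh⟩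

open Classical in
/-- **FINAL**: `∑ #Cl(ℚ(√D))[5] ≤ C N` over the fundamental discriminants of each sign with `|D| < N`, and
`∑ (#Cl(ℚ(√D))[5] - 1) ≥ c N` over the negative ones -/
def FINAL_stmt : Prop :=
    ∃ c C : ℝ, 0 < c ∧ ∃ N₀ : ℕ, ∀ f : ℤ → ℕ,
      (∀ (K : Type) [Field K] [NumberField K], Module.finrank ℚ K = 2 →
        f (NumberField.discr K) =
          Nat.card {x : ClassGroup (NumberField.RingOfIntegers K) // x ^ 5 = 1}) →
      ∀ N : ℕ, N₀ ≤ N →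
        (∑ D ∈ (Finset.Ioo (0 : ℤ) (N : ℤ)).filter (fun D : ℤ =>
              (D % 4 = 1 ∧ D ≠ 1 ∧ Squarefree D) ∨
              (∃ m : ℤ, D = 4 * m ∧ (m % 4 = 2 ∨ m % 4 = 3) ∧ Squarefree m)),
            (f D : ℝ) ≤ C * N) ∧
        (∑ D ∈ (Finset.Ioo (-(N : ℤ)) (0 : ℤ)).filter (fun D : ℤ =>
              (D % 4 = 1 ∧ D ≠ 1 ∧ Squarefree D) ∨
              (∃ m : ℤ, D = 4 * m ∧ (m % 4 = 2 ∨ m % 4 = 3) ∧ Squarefree m)),
            (f D : ℝ) ≤ C * N) ∧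
        (c * N ≤ ∑ D ∈ (Finset.Ioo (-(N : ℤ)) (0 : ℤ)).filter (fun D : ℤ =>
              (D % 4 = 1 ∧ D ≠ 1 ∧ Squarefree D) ∨
              (∃ m : ℤ, D = 4 * m ∧ (m % 4 = 2 ∨ m % 4 = 3) ∧ Squarefree m)),
            ((f D : ℝ) - 1))

/-- the final theorem from the three targets -/
theorem final_of (hU : UB_stmt) (hR : Pool.Agent.T6R.UBR_stmt) (hL : LB_stmt) : FINAL_stmt := by
  classical
  obtain ⟨C₁, hC₁, hU⟩ := hU
  obtain ⟨C₂, hC₂, hR⟩ := hR
  obtain ⟨c, N₁, hc, hL⟩ := hL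
  refine ⟨c / 2, max C₁ C₂, by positivity, max (⌈N₁⌉₊ + 1) 2, fun f hf N hN => ⟨?_, ?_, ?_⟩⟩
  · refine (hR f hf N _ fun D hD => ?_).trans
      (mul_le_mul_of_nonneg_right (le_max_right _ _) (Nat.cast_nonneg _))
    rw [Finset.mem_filter, Finset.mem_Ioo] at hD
    exact ⟨hD.2, hD.1.1, by rw [abs_of_pos hD.1.1]; exact hD.1.2⟩
  · refine (hU f hf N _ fun D hD => ?_).trans
      (mul_le_mul_of_nonneg_right (le_max_left _ _) (Nat.cast_nonneg _))
    rw [Finset.mem_filter, Finset.mem_Ioo] at hD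
    exact ⟨hD.2, hD.1.2, by rw [abs_of_neg hD.1.2]; omega⟩
  · have hN2 : 2 ≤ N := (le_max_right _ _).trans hN
    have hN1 : ⌈N₁⌉₊ + 1 ≤ N := (le_max_left _ _).trans hN
    have h1 : N₁ ≤ ((N - 1 : ℕ) : ℝ) := by
      have h2 : ⌈N₁⌉₊ ≤ N - 1 := by omega
      exact (Nat.le_ceil N₁).trans (by exact_mod_cast h2)
    have h3 := hL f hf ((N - 1 : ℕ) : ℝ) h1
    have h4 : c / 2 * N ≤ c * ((N - 1 : ℕ) : ℝ) := by
      rw [Nat.cast_sub (by omega)]
      have h5 : (2 : ℝ) ≤ N := by exact_mod_cast hN2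
      push_cast
      nlinarith
    refine h4.trans (h3.trans (le_of_eq ?_))
    refine Finset.sum_congr ?_ fun _ _ => rfl
    have h6 : ⌊((N - 1 : ℕ) : ℝ)⌋ = (N : ℤ) - 1 := by
      rw [Int.floor_natCast, Nat.cast_sub (by omega)]
      push_cast
      rfl
    rw [h6]
    ext D
    simp only [Finset.mem_filter, Finset.mem_Ico, Finset.mem_Ioo, IsFund]
    constructor
    · rintro ⟨⟨h7, h8⟩, h9⟩
      exact ⟨⟨by omega, h8⟩, h9⟩
    · rintro ⟨⟨h7, h8⟩, h9⟩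
      exact ⟨⟨by omega, h8⟩, h9⟩

end Pool.Agent.T6L
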