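import Pool.Agent.helper85.T6L.Defs
import Pool.Agent.helper19.T5.AIST
import Pool.Agent.helper57.LT.DE

set_option autoImplicit false

/-!
# T6L, block A (assembly): `LBM_stmt → GT_stmt → GD_stmt → LB_stmt`
-/

namespace Pool.Agent.T6L

open Finset NumberField Pool.Agent.helper3.FT Pool.Agent.helper47.RA Pool.Agent.T5 Pool.Agent.T6

/-- the decomposition `dis t = D₀ f²` of a fine tuple -/
theorem LB_dec (N : ℝ) (hN : 0 < N) (P : ℝ) (t : Tpl) (h : Tn N t) (hf : Fine P t) :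
    ∃ (f : ℕ) (D₀ : ℤ), 1 ≤ f ∧ IsFund D₀ ∧ dis t = D₀ * (f : ℤ) ^ 2 ∧
      (∀ p : ℕ, p.Prime → p ∣ f → 5 < p) := by
  have hd : dis t < 0 := by
    have h1 := h.d1
    have h2 : ((dis t : ℤ) : ℝ) < 0 := by linarith
    exact_mod_cast h2
  obtain ⟨f, D₀, hf1, hD, hdis⟩ :=
    Pool.Agent.helper28.LT.exists_fund (dis t) hd (AIST t h.tt).2.2.2.2.2
  refine ⟨f, D₀, hf1, hD, by rw [hdis]; ring, fun p hp hpf => ?_⟩
  have hsq : (p : ℤ) ^ 2 ∣ dis t := by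
    rw [hdis]
    exact Dvd.dvd.mul_right (pow_dvd_pow_of_dvd (by exact_mod_cast hpf) 2) _
  by_contra hlt
  push Not at hlt
  have h0 := hp.two_le
  interval_cases p
  · exact hf.two (dvd_trans (by norm_num) hsq)
  · exact hf.three (by norm_num at hsq; exact hsq)
  · norm_num at hp
  · exact hf.five (by norm_num at hsq; exact hsq)

/-- choice of `ρ` -/
theorem LB_rho (c C ρ₀ : ℝ) (hc : 0 < c) (hC : 1 ≤ C) (hρ : 0 < ρ₀) :
    ∃ ρ : ℝ, 0 < ρ ∧ ρ ≤ ρ₀ ∧ ρ ≤ 1 ∧ C * (ρ ^ (-(1.05 : ℝ))) ^ (-(0.98 : ℝ)) ≤ c * ρ / 4 := by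
  have hx : 0 < c / (4 * C) := by positivity
  have hy : 0 < (c / (4 * C)) ^ (1 / 0.029 : ℝ) := Real.rpow_pos_of_pos hx _
  refine ⟨min (min ρ₀ 1) ((c / (4 * C)) ^ (1 / 0.029 : ℝ)), lt_min (lt_min hρ one_pos) hy,
    (min_le_left _ _).trans (min_le_left _ _), (min_le_left _ _).trans (min_le_right _ _), ?_⟩
  set ρ := min (min ρ₀ 1) ((c / (4 * C)) ^ (1 / 0.029 : ℝ)) with hρdef
  have h0 : 0 < ρ := lt_min (lt_min hρ one_pos) hy
  have h1 : ρ ≤ (c / (4 * C)) ^ (1 / 0.029 : ℝ) := min_le_right _ _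
  have h2 : ρ ^ (0.029 : ℝ) ≤ c / (4 * C) := by
    calc ρ ^ (0.029 : ℝ) ≤ ((c / (4 * C)) ^ (1 / 0.029 : ℝ)) ^ (0.029 : ℝ) :=
          Real.rpow_le_rpow h0.le h1 (by norm_num)
      _ = c / (4 * C) := by
          rw [← Real.rpow_mul hx.le]
          norm_num
  have h3 : (ρ ^ (-(1.05 : ℝ))) ^ (-(0.98 : ℝ)) = ρ * ρ ^ (0.029 : ℝ) := by
    rw [← Real.rpow_mul h0.le]
    have h4 : (-(1.05 : ℝ)) * (-(0.98 : ℝ)) = 1 + 0.029 := by norm_num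
    rw [h4, Real.rpow_add h0, Real.rpow_one]
  rw [h3]
  have h5 : C * (ρ * ρ ^ (0.029 : ℝ)) ≤ C * (ρ * (c / (4 * C))) := by gcongr
  refine h5.trans (le_of_eq ?_)
  field_simp

/-- choice of `P` -/
theorem LB_P (x C : ℝ) (hx : 0 < x) (hC : 1 ≤ C) :
    ∃ P : ℝ, 1 ≤ P ∧ C * P ^ (-(0.98 : ℝ)) ≤ x := by
  have hy : 0 < C / x := by positivity
  refine ⟨max 1 ((C / x) ^ (1 / 0.98 : ℝ)), le_max_left _ _, ?_⟩
  set P := max 1 ((C / x) ^ (1 / 0.98 : ℝ)) with hP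
  have h0 : 0 < P := lt_of_lt_of_le one_pos (le_max_left _ _)
  have h1 : C / x ≤ P ^ (0.98 : ℝ) := by
    calc C / x = ((C / x) ^ (1 / 0.98 : ℝ)) ^ (0.98 : ℝ) := by
          rw [← Real.rpow_mul hy.le]
          norm_num
      _ ≤ P ^ (0.98 : ℝ) := Real.rpow_le_rpow (Real.rpow_pos_of_pos hy _).le (le_max_right _ _) (by norm_num)
  rw [Real.rpow_neg h0.le, ← div_eq_mul_inv, div_le_iff₀ (Real.rpow_pos_of_pos h0 _)]
  rw [div_le_iff₀ hx] at h1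
  linarith

/-- **LB_of**: the assembly -/
theorem LB_of (hL : LBM_stmt) (hG : GT_stmt) (hD : GD_stmt) : LB_stmt := by
  classical
  obtain ⟨c, ρ₀, hc, hρ₀, hL⟩ := hL
  obtain ⟨C, hC, hG⟩ := hG
  obtain ⟨ρ, hρ, hρ1, hρ2, hρ3⟩ := LB_rho c C ρ₀ hc hC hρ₀
  obtain ⟨N₁, hN₁⟩ := hL ρ hρ hρ1
  have hP1 : (1 : ℝ) ≤ ρ ^ (-(1.05 : ℝ)) :=
    Real.one_le_rpow_of_pos_of_le_one_of_nonpos hρ hρ2 (by norm_num)
  obtain ⟨F₁, hF₁⟩ := hG _ hP1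
  obtain ⟨P, hP, hPx⟩ := LB_P (c * ρ / 4) C (by positivity) hC
  obtain ⟨F₂, hF₂⟩ := hG P hP
  obtain ⟨C₃, N₃, hC₃, hGD⟩ := hD F₂
  refine ⟨c * ρ / (2 * C₃), max (max N₁ N₃) 1, by positivity, fun h hh N hN => ?_⟩
  have hNN₁ : N₁ ≤ N := (le_max_left _ _).trans ((le_max_left _ _).trans hN)
  have hNN₃ : N₃ ≤ N := (le_max_right _ _).trans ((le_max_left _ _).trans hN)
  have hNN : 1 ≤ N := (le_max_right _ _).trans hN
  obtain ⟨F, hF, hFt⟩ := hN₁ N hNN₁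
  have hdec : ∀ t : {t // t ∈ F}, ∃ (f : ℕ) (D₀ : ℤ), 1 ≤ f ∧ IsFund D₀ ∧
      dis t.1 = D₀ * (f : ℤ) ^ 2 ∧ (∀ p : ℕ, p.Prime → p ∣ f → 5 < p) := fun t =>
    LB_dec N (by linarith) _ t.1 (hFt t.1 t.2).1 (hFt t.1 t.2).2
  choose f D₀ hf1 hfD hdis hf5 using hdec
  -- bad primes
  set A := (F.attach.filter (fun t => ∃ p : ℕ, p.Prime ∧ p ∣ f t ∧ (p : ℤ) ∣ t.1.2.2.2 * lam t.1)).image
    Subtype.val with hA
  set B := (F.attach.filter (fun t => F₂ < f t)).image Subtype.val with hB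
  set G := (F.attach.filter (fun t => f t ≤ F₂ ∧
    ¬ ∃ p : ℕ, p.Prime ∧ p ∣ f t ∧ (p : ℤ) ∣ t.1.2.2.2 * lam t.1)).image Subtype.val with hGdef
  have hcard : F.card ≤ A.card + B.card + G.card := by
    have h1 : F ⊆ (A ∪ B) ∪ G := by
      intro t ht
      by_cases h2 : ∃ p : ℕ, p.Prime ∧ p ∣ f ⟨t, ht⟩ ∧ (p : ℤ) ∣ t.2.2.2 * lam t
      · exact mem_union_left _ (mem_union_left _ (mem_image.2 ⟨⟨t, ht⟩, mem_filter.2 ⟨mem_attach _ _, h2⟩, rfl⟩))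
      · rcases lt_or_ge F₂ (f ⟨t, ht⟩) with h3 | h3
        · exact mem_union_left _ (mem_union_right _ (mem_image.2 ⟨⟨t, ht⟩, mem_filter.2 ⟨mem_attach _ _, h3⟩, rfl⟩))
        · exact mem_union_right _ (mem_image.2 ⟨⟨t, ht⟩, mem_filter.2 ⟨mem_attach _ _, h3, h2⟩, rfl⟩)
    calc F.card ≤ ((A ∪ B) ∪ G).card := card_le_card h1
      _ ≤ (A ∪ B).card + G.card := card_union_le _ _
      _ ≤ A.card + B.card + G.card := by gcongr; exact card_union_le _ _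
  have hAc : (A.card : ℝ) ≤ c * ρ / 4 * N := by
    have h1 := hF₁ N hNN A (fun t ht => by
      obtain ⟨x, hx, rfl⟩ := mem_image.1 ht
      obtain ⟨_, p, hp, hpf, hpz⟩ := mem_filter.1 hx
      refine ⟨(hFt x.1 x.2).1, f x, D₀ x, hfD x, hdis x, hf5 x, Or.inr ⟨p, hp, hpf, ?_⟩⟩
      by_contra h3
      push Not at h3
      refine (hFt x.1 x.2).2.gp p hp h3 ?_ hpz
      rw [hdis x]
      exact Dvd.dvd.mul_left (pow_dvd_pow_of_dvd (by exact_mod_cast hpf) 2) _)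
    refine h1.trans ?_
    exact mul_le_mul_of_nonneg_right hρ3 (by linarith)
  have hBc : (B.card : ℝ) ≤ c * ρ / 4 * N := by
    have h1 := hF₂ N hNN B (fun t ht => by
      obtain ⟨x, hx, rfl⟩ := mem_image.1 ht
      exact ⟨(hFt x.1 x.2).1, f x, D₀ x, hfD x, hdis x, hf5 x, Or.inl (mem_filter.1 hx).2⟩)
    refine h1.trans ?_
    exact mul_le_mul_of_nonneg_right hPx (by linarith)
  have hGc := hGD h hh N hNN₃ G (fun t ht => by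
    obtain ⟨x, hx, rfl⟩ := mem_image.1 ht
    obtain ⟨_, h1, h2⟩ := mem_filter.1 hx
    refine ⟨(hFt x.1 x.2).1, f x, D₀ x, hfD x, hdis x, hf1 x, h1, ?_⟩
    rw [Int.isCoprime_iff_gcd_eq_one]
    by_contra h3
    obtain ⟨p, hp, hpd⟩ := Nat.exists_prime_and_dvd h3
    refine h2 ⟨p, hp, ?_, ?_⟩
    · exact_mod_cast (Int.natCast_dvd_natCast.2 hpd).trans (Int.gcd_dvd_left _ _)
    · exact (Int.natCast_dvd_natCast.2 hpd).trans (Int.gcd_dvd_right _ _))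
  have hsum : (F.card : ℝ) ≤ A.card + B.card + G.card := by exact_mod_cast hcard
  have hfin : c * ρ / 2 * N ≤ C₃ * ∑ D ∈ (Ico (-⌊N⌋) 0).filter IsFund, ((h D : ℝ) - 1) := by
    have h1 : c * ρ * N = c * ρ / 4 * N + c * ρ / 4 * N + c * ρ / 2 * N := by ring
    linarith
  have hC₃' : 0 < C₃ := by linarith
  have h2 : c * ρ / (2 * C₃) * N = (c * ρ / 2 * N) / C₃ := by
    field_simp
  rw [h2, div_le_iff₀ hC₃']
  linarith

end Pool.Agent.T6L
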